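import Mathlib
import Pool.Agent.V11242.RN.Defs

/-!
# Strong Sierpiński sequences and plastic metric spaces: definitions

`2^ω` carries the product measure. For `r : ℕ` the elements of `(2^ω)^(r + 1)` are identified with
the elements of `2^ω`, by interleaving: the tuple `(y 0, …, y r)` is identified with the sequence
whose bit with index `m` is the bit with index `m / (r + 1)` of `y (m % (r + 1))`.

A sequence `x` of elements of `2^ω`, indexed by a linearly ordered set `K`, is a strong Sierpiński
sequence if for every `r` and every null set `N ⊆ (2^ω)^(r + 1)` there is a `k₀ ∈ K` such that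
`(x (s 0), …, x (s r)) ∉ N` for all pairwise different `s 0, …, s r > k₀`.
-/

set_option autoImplicit false

namespace Pool.Agent.V11242.PL

open Pool.Agent.TH773.PSet Pool.Agent.V11242.RN

universe u

/-! ### In the forcing language -/

section Forcing

variable {P : Type u} [Preorder P]

/-- The name of the interleaving of the named sequences `x (s 0), …, x (s r)`. -/
def inter {K : Type} (r : ℕ) (x : K → ℕ → Set P) (s : Fin (r + 1) → K) (m : ℕ) : Set P :=
  x (s ⟨m % (r + 1), Nat.mod_lt m r.succ_pos⟩) (m / (r + 1))

variable (P) in
/-- There is a strong Sierpiński sequence indexed by `K`, in the forcing language. -/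
def Sierpinski (K : Type) [LinearOrder K] : Set P :=
  fex fun x : K → ℕ → Set P => fall fun r : ℕ => fall fun c : ℕ → List Bool → Set P =>
    fimp (IsNullCode c) (fex fun k₀ : K => fall fun s : Fin (r + 1) → K =>
      fall fun _ : Function.Injective s ∧ ∀ i, k₀ < s i => fnot (InNull (inter r x s) c))

variable (P) in
/-- The sentence `Phi K`, in the forcing language. -/
def PhiForces (K : Type) [LinearOrder K] : Set P := fand (Sierpinski P K) (NoNullCover P K)

end Forcing

/-! ### The same sentence, outside of the forcing language -/

/-- The interleaving of the sequences `x (s 0), …, x (s r)`. -/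
def inter' {K : Type} (r : ℕ) (x : K → ℕ → Bool) (s : Fin (r + 1) → K) (m : ℕ) : Bool :=
  x (s ⟨m % (r + 1), Nat.mod_lt m r.succ_pos⟩) (m / (r + 1))

/-- `x` is a strong Sierpiński sequence. -/
def IsSierpinski {K : Type} [LinearOrder K] (x : K → ℕ → Bool) : Prop :=
  ∀ r : ℕ, ∀ c : ℕ → Set (List Bool), NullCode c → ∃ k₀ : K, ∀ s : Fin (r + 1) → K,
    (Function.Injective s ∧ ∀ i, k₀ < s i) → ¬ InCoded (inter' r x s) c

/-- The sentence `Phi K`: there is a strong Sierpiński sequence indexed by `K`, and for every family
of null sets which is indexed by `K` there is an element of `2^ω` outside of all of them. -/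
def Phi (K : Type) [LinearOrder K] : Prop :=
  (∃ x : K → ℕ → Bool, IsSierpinski x) ∧
  (∀ C : K → ℕ → Set (List Bool), (∀ k, NullCode (C k)) →
    ∃ y : ℕ → Bool, ∀ k, ¬ InCoded y (C k))

/-! ### Plastic spaces -/

/-- The map `f` is non-expansive. -/
def NonExpansive {X : Type} [MetricSpace X] (f : X → X) : Prop :=
  ∀ x y, dist (f x) (f y) ≤ dist x y

/-- The metric space `X` is plastic: every non-expansive bijection from `X` to `X` is an
isometry. -/
def Plastic (X : Type) [MetricSpace X] : Prop :=
  ∀ f : X → X, Function.Bijective f → NonExpansive f → ∀ x y, dist (f x) (f y) = dist x y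

end Pool.Agent.V11242.PL
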