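import Mathlib
import Pool.Agent.V11242.RN.Forced
import Pool.Agent.V11242.PL.Defs

/-!
# Random reals form a strong Sierpiński sequence
-/

set_option autoImplicit false
set_option linter.unusedSectionVars false

namespace Pool.Agent.V11242.PL

open Pool.Agent.TH773.PSet Pool.Agent.V11242.RF Pool.Agent.V11242.RN MeasureTheory Set Filter
  Topology

universe u v

variable {I : Type}

/-- the bits with the indices `E 0, E 1, …` -/
def coE (E : ℕ → I × ℕ) (n : ℕ) : Set (I × ℕ → Bool) := {x | x (E n) = true}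

theorem meas_coE (E : ℕ → I × ℕ) : Meas (coE E) := fun n =>
  (dep_coord (mem_singleton (E n))).meas

theorem dep_extE (E : ℕ → I × ℕ) (σ : List Bool) : Dep (range E) (ext (coE E) σ) := by
  rw [ext_eq]
  refine Dep.iInter fun n => Dep.iInter fun _ => ?_
  have h : Dep (range E) (coE E n) := dep_coord (T := range E) (t := E n) ⟨n, rfl⟩
  cases σ.getD n false
  · exact h.compl
  · exact h

theorem measure_extE {E : ℕ → I × ℕ} (hE : Function.Injective E) (σ : List Bool) :
    coinProduct I (ext (coE E) σ) = (2 : ENNReal)⁻¹ ^ σ.length := by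
  classical
  let s : Finset (I × ℕ) := (Finset.range σ.length).image E
  let v : I × ℕ → Bool := fun t => σ.getD (Function.invFun E t) false
  have hv : ∀ j, v (E j) = σ.getD j false := fun j => by
    simp only [v]
    rw [Function.leftInverse_invFun hE]
  have hs : ext (coE E) σ = Set.pi s fun t => {v t} := by
    ext x
    simp only [RN.ext, coE, mem_ofPred_eq, Set.mem_pi, s, Finset.coe_image, mem_image,
      Finset.coe_range, mem_Iio, mem_singleton_iff]
    constructor
    · rintro h _ ⟨j, hj, rfl⟩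
      rw [hv]
      exact Bool.eq_iff_iff.2 (h j hj)
    · intro h j hj
      have h1 := h (E j) ⟨j, hj, rfl⟩
      rw [hv] at h1
      exact Bool.eq_iff_iff.1 h1
  have hcard : s.card = σ.length := by
    rw [Finset.card_image_of_injective _ hE, Finset.card_range]
  rw [hs, coinProduct, Measure.infinitePi_pi _ fun _ _ => measurableSet_singleton _]
  simp only [coin_singleton]
  rw [Finset.prod_const, hcard]

/-- The name of the sequence of bits with the indices `E 0, E 1, …`. -/
def rE (E : ℕ → I × ℕ) (n : ℕ) : Set (Random I) := AE (coinProduct I) (coE E n)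

theorem meets_rE (E : ℕ → I × ℕ) (n : ℕ) : meets (rE E n) = AE (coinProduct I) (coE E n) :=
  meets_AE (meas_coE E n)

/-- If the code `c` does not depend on the bits with the indices `E 0, E 1, …`, then this sequence
of bits does not belong to the null set with code `c`. -/
theorem notInNullE {c : ℕ → List Bool → Set (Random I)} {q : Random I} (hc : q ∈ IsNullCode c)
    {T : Set (I × ℕ)} (hq : Dep T q.1) (hT : ∀ n σ, Dep T (rep (c n σ))) {E : ℕ → I × ℕ}
    (hE : Function.Injective E) (hi : ∀ m, E m ∉ T) : q ∈ fnot (InNull (rE E) c) := by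
  rw [inNull_AE (meas_coE E) (meets_rE E)]
  intro r hr hr'
  have hdisj : Disjoint T (range E) := by
    rw [Set.disjoint_left]
    rintro _ h1 ⟨m, rfl⟩
    exact hi m h1
  have h1 : ∀ n, coinProduct I r.1 ≤ (2 : ENNReal)⁻¹ ^ n := by
    intro n
    have h2 : coinProduct I r.1 ≤
        coinProduct I (⋃ σ, (q.1 ∩ rep (c n σ)) ∩ ext (coE E) σ) := by
      refine measure_mono_ae ?_
      have h3 := mem_AE_iff.1 (le_iff_AE.1 hr)
      have h4 := mem_AE_iff.1 hr'
      filter_upwards [h3, h4] with x h5 h6 h7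
      obtain ⟨σ, h8, h9⟩ := h6 h7 n
      exact mem_iUnion.2 ⟨σ, ⟨h5 h7, h8⟩, h9⟩
    refine h2.trans ((measure_iUnion_le _).trans ?_)
    have h3 : ∀ σ, coinProduct I ((q.1 ∩ rep (c n σ)) ∩ ext (coE E) σ) =
        coinProduct I (q.1 ∩ rep (c n σ)) * (2 : ENNReal)⁻¹ ^ σ.length := by
      intro σ
      rw [dep_indep hdisj (hq.inter (hT n σ)) (dep_extE E σ), measure_extE hE]
    simp only [h3]
    refine (lintegral_code hc n).trans ?_
    calc coinProduct I q.1 * (2 : ENNReal)⁻¹ ^ n ≤ 1 * (2 : ENNReal)⁻¹ ^ n :=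
          mul_le_mul_left prob_le_one _
      _ = _ := one_mul _
  refine r.2.2 (le_antisymm ?_ bot_le)
  have h2 := ENNReal.tendsto_pow_atTop_nhds_zero_of_lt_one
    (r := (2 : ENNReal)⁻¹) (ENNReal.inv_lt_one.2 (by norm_num))
  exact ge_of_tendsto' h2 h1

open Cardinal in
/-- Random reals form a strong Sierpiński sequence. -/
theorem sierpinski {K : Type} [LinearOrder K] (hK : Uncountable K)
    (hK' : ∀ k : K, (Iic k).Countable) (e : K ↪ I) (p : Random I) :
    p ∈ Sierpinski (Random I) K := by
  classical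
  refine mem_fex.2 fun q _ => ⟨q, le_rfl, fun k => rr (e k), fun r c => ?_⟩
  refine mem_fimp.2 fun r' _ hc => ⟨r', le_rfl, mem_fex.2 fun s hs => ?_⟩
  obtain ⟨T0, hT0, hT0'⟩ := exists_countable s.2.1
  choose T1 hT1 hT1' using fun (n : ℕ) (σ : List Bool) =>
    exists_countable (measurable_rep (c n σ))
  let T : Set (I × ℕ) := T0 ∪ ⋃ n, ⋃ σ, T1 n σ
  have hT : T.Countable := hT0.union (countable_iUnion fun n => countable_iUnion (hT1 n))
  have hS : (e ⁻¹' (Prod.fst '' T)).Countable :=
    (hT.image _).preimage_of_injOn e.injective.injOn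
  obtain ⟨k₀, hk₀⟩ : ∃ k₀, ∀ k, k₀ < k → e k ∉ Prod.fst '' T := by
    by_contra hcon
    push Not at hcon
    have h2 : (univ : Set K) = ⋃ k ∈ e ⁻¹' (Prod.fst '' T), Iic k := by
      refine (eq_univ_of_forall fun k₀ => ?_).symm
      obtain ⟨k, hk, hk'⟩ := hcon k₀
      exact mem_biUnion (x := k) hk' hk.le
    have h3 : (univ : Set K).Countable := by
      rw [h2]
      exact hS.biUnion fun k _ => hK' k
    exact not_countable (α := K) (countable_univ_iff.1 h3)
  refine ⟨s, le_rfl, k₀, fun t ht => ?_⟩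
  let E : ℕ → I × ℕ := fun m => (e (t ⟨m % (r + 1), Nat.mod_lt m r.succ_pos⟩), m / (r + 1))
  have hE : Function.Injective E := by
    intro a b hab
    have h1 := congrArg Prod.fst hab
    have h2 : a / (r + 1) = b / (r + 1) := congrArg Prod.snd hab
    have h3 := ht.1 (e.injective h1)
    have h4 : a % (r + 1) = b % (r + 1) := congrArg Fin.val h3
    rw [← Nat.div_add_mod a (r + 1), ← Nat.div_add_mod b (r + 1), h2, h4]
  have h1 := notInNullE ((reg_isNullCode c).1 _ hc _ hs)
    (hT0'.mono subset_union_left) (T := T) (fun n σ => (hT1' n σ).mono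
      (subset_union_of_subset_right
        (subset_iUnion_of_subset n (subset_iUnion_of_subset σ le_rfl)) T0)) hE
    (fun m hm => hk₀ _ (ht.2 _) ⟨_, hm, rfl⟩)
  exact h1

open Cardinal in
/-- There is a ccc partial order which forces the sentence `Phi`. -/
theorem exists_forcing : ∃ (K P : Type) (_ : LinearOrder K) (_ : NoMaxOrder K) (_ : Preorder P),
    (∀ k : K, (Iic k).Countable) ∧ Nonempty P ∧
    (∀ A : Set P, (∀ p ∈ A, ∀ q ∈ A, p ≠ q → ¬ ∃ r, r ≤ p ∧ r ≤ q) → A.Countable) ∧
    ∀ p : P, p ∈ PhiForces P K := by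
  let K : Type := (Cardinal.aleph 1).ord.ToType
  let I : Type := (ℵ_ 2 : Cardinal.{0}).out
  have hKc : #K = ℵ₁ := by simp [K]
  have hK : ℵ₀ < #K := by
    rw [hKc]
    exact aleph0_lt_aleph_one
  have hI : #K < #I := by
    rw [hKc, mk_out]
    exact aleph_lt_aleph.2 (_root_.one_lt_two)
  have hun : Uncountable K := by
    rw [← not_countable_iff, ← Cardinal.mk_le_aleph0_iff]
    exact not_le.2 hK
  have hIic : ∀ k : K, (Iic k).Countable := by
    intro k
    have h1 : #(Iio k) < ℵ₁ := Cardinal.mk_Iio_ord_toType k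
    have h2 : (Iio k).Countable := by
      rw [← Cardinal.le_aleph0_iff_set_countable]
      exact Order.lt_succ_iff.1 (by rwa [succ_aleph0])
    rw [← Iio_insert]
    exact h2.insert k
  have hmax : NoMaxOrder K := by
    refine ⟨fun k => ?_⟩
    by_contra hcon
    push Not at hcon
    have h3 : (univ : Set K).Countable := (hIic k).mono fun j _ => hcon j
    exact not_countable (α := K) (countable_univ_iff.1 h3)
  obtain ⟨e⟩ : Nonempty (K ↪ I) := hI.le
  refine ⟨K, Random I, inferInstance, hmax, inferInstance, hIic,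
    ⟨RF.mk Set.univ MeasurableSet.univ (by simp)⟩, ?_, fun p =>
    ⟨sierpinski hun hIic e p, (phiHolds hK hI p).2⟩⟩
  intro A hA
  refine RF.countable_of_incomp (μ := coinProduct I) (fun p : A => p.1) fun p q hpq => ?_
  exact hA p.1 p.2 q.1 q.2 fun h => hpq (Subtype.ext h)

end Pool.Agent.V11242.PL
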