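import Mathlib
import Pool.Agent.V11242.RN.Ground
import Pool.Agent.V11242.PL.Defs

/-!
# The map from `2^ω` to the unit interval
-/

set_option autoImplicit false
set_option linter.unusedSectionVars false

namespace Pool.Agent.V11242.PL

open MeasureTheory Set Filter Topology Pool.Agent.V11242.RN

open Pool.Agent.TH773.PSet (coin)

/-! ### Binary expansions -/

/-- the value of a bit -/
def bv (b : Bool) : ℕ := cond b 1 0

/-- the number with the binary digits `w 0, …, w (n - 1)` -/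
def val (w : ℕ → Bool) : ℕ → ℕ
  | 0 => 0
  | n + 1 => 2 * val w n + bv (w n)

/-- The real number with the binary digits `w 0, w 1, …`. -/
noncomputable def U (w : ℕ → Bool) : ℝ := ∑' n, (bv (w n) : ℝ) * (2 : ℝ)⁻¹ ^ (n + 1)

theorem bv_le (b : Bool) : bv b ≤ 1 := by cases b <;> simp [bv]

theorem term_nonneg (w : ℕ → Bool) (n : ℕ) : 0 ≤ (bv (w n) : ℝ) * (2 : ℝ)⁻¹ ^ (n + 1) := by
  positivity

theorem term_le (w : ℕ → Bool) (n : ℕ) :
    (bv (w n) : ℝ) * (2 : ℝ)⁻¹ ^ (n + 1) ≤ (2 : ℝ)⁻¹ ^ (n + 1) := by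
  have h1 : (bv (w n) : ℝ) ≤ 1 := by exact_mod_cast bv_le _
  have h2 : (0 : ℝ) ≤ (2 : ℝ)⁻¹ ^ (n + 1) := by positivity
  nlinarith

theorem hasSum_half (k : ℕ) : HasSum (fun n : ℕ => (2 : ℝ)⁻¹ ^ (n + k + 1)) ((2 : ℝ)⁻¹ ^ k) := by
  have h1 : HasSum (fun n : ℕ => (2 : ℝ)⁻¹ ^ n) (1 - (2 : ℝ)⁻¹)⁻¹ :=
    hasSum_geometric_of_lt_one (by norm_num) (by norm_num)
  have h2 := h1.mul_right ((2 : ℝ)⁻¹ ^ (k + 1))
  have e1 : (fun n : ℕ => (2 : ℝ)⁻¹ ^ n * (2 : ℝ)⁻¹ ^ (k + 1)) =
      fun n : ℕ => (2 : ℝ)⁻¹ ^ (n + k + 1) := by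
    funext n
    rw [← pow_add]
    congr 1
  have e2 : (1 - (2 : ℝ)⁻¹)⁻¹ * (2 : ℝ)⁻¹ ^ (k + 1) = (2 : ℝ)⁻¹ ^ k := by
    rw [pow_succ]
    norm_num
    ring
  rwa [e1, e2] at h2

theorem summable_half : Summable fun n : ℕ => (2 : ℝ)⁻¹ ^ (n + 1) := by
  have h := (hasSum_half 0).summable
  simpa using h

theorem summable_term (w : ℕ → Bool) :
    Summable fun n => (bv (w n) : ℝ) * (2 : ℝ)⁻¹ ^ (n + 1) :=
  Summable.of_nonneg_of_le (term_nonneg w) (term_le w) summable_half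

theorem sum_range_eq (w : ℕ → Bool) (n : ℕ) :
    ∑ i ∈ Finset.range n, (bv (w i) : ℝ) * (2 : ℝ)⁻¹ ^ (i + 1) = (val w n : ℝ) * (2 : ℝ)⁻¹ ^ n := by
  induction n with
  | zero => simp [val]
  | succ n ih =>
    rw [Finset.sum_range_succ, ih, val, pow_succ]
    push_cast
    ring

theorem val_le_U (w : ℕ → Bool) (n : ℕ) : (val w n : ℝ) * (2 : ℝ)⁻¹ ^ n ≤ U w := by
  rw [← sum_range_eq]
  exact (summable_term w).sum_le_tsum _ fun i _ => term_nonneg w i

theorem U_le_val (w : ℕ → Bool) (n : ℕ) : U w ≤ ((val w n : ℝ) + 1) * (2 : ℝ)⁻¹ ^ n := by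
  have h1 := (summable_term w).sum_add_tsum_nat_add n
  have h2 : ∑' i, (bv (w (i + n)) : ℝ) * (2 : ℝ)⁻¹ ^ (i + n + 1) ≤ (2 : ℝ)⁻¹ ^ n := by
    rw [← (hasSum_half n).tsum_eq]
    refine Summable.tsum_le_tsum (fun i => term_le w (i + n)) ?_ (hasSum_half n).summable
    exact (summable_nat_add_iff (f := fun n => (bv (w n) : ℝ) * (2 : ℝ)⁻¹ ^ (n + 1)) n).2
      (summable_term w)
  rw [sum_range_eq] at h1
  unfold U
  rw [← h1, add_mul, one_mul]
  linarith

theorem val_inj {w w' : ℕ → Bool} {n : ℕ} (h : val w n = val w' n) : ∀ i < n, w i = w' i := by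
  induction n with
  | zero => intro i hi; exact absurd hi (Nat.not_lt_zero i)
  | succ n ih =>
    simp only [val] at h
    have h1 := bv_le (w n)
    have h2 := bv_le (w' n)
    have h3 : val w n = val w' n := by omega
    have h4 : bv (w n) = bv (w' n) := by omega
    intro i hi
    rcases Nat.lt_succ_iff_lt_or_eq.1 hi with h5 | rfl
    · exact ih h3 i h5
    · revert h4
      cases w i <;> cases w' i <;> simp [bv]

theorem measurable_U : Measurable U := by
  unfold U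
  refine measurable_of_tendsto_metrizable
    (f := fun n (w : ℕ → Bool) => ∑ i ∈ Finset.range n, (bv (w i) : ℝ) * (2 : ℝ)⁻¹ ^ (i + 1))
    (fun n => ?_) ?_
  · refine Finset.measurable_sum _ fun i _ => ?_
    have h : Measurable fun b : Bool => (bv b : ℝ) * (2 : ℝ)⁻¹ ^ (i + 1) := measurable_of_finite _
    exact h.comp (measurable_pi_apply i)
  · rw [tendsto_pi_nhds]
    exact fun w => (summable_term w).hasSum.tendsto_sum_nat

/-! ### Absolute continuity -/

theorem lam_val (n k : ℕ) : lam {w | val w n = k} ≤ (2 : ENNReal)⁻¹ ^ n := by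
  rcases {w : ℕ → Bool | val w n = k}.eq_empty_or_nonempty with h | ⟨w₀, h₀⟩
  · rw [h]
    simp
  · have h1 : {w : ℕ → Bool | val w n = k} ⊆ cyl (seg w₀ n) := by
      intro w hw
      have h2 : val w n = val w₀ n := hw.trans h₀.symm
      exact mem_cyl_seg.2 (val_inj h2)
    refine (measure_mono h1).trans ?_
    rw [lam_cyl, length_seg]

theorem lam_Ioc_le (a b : ℝ) (hab : a ≤ b) (n : ℕ) :
    lam (U ⁻¹' Ioc a b) ≤ ENNReal.ofReal (b - a + 2 * (2 : ℝ)⁻¹ ^ n) := by
  let S : Finset ℤ := Finset.Icc ⌈(2 : ℝ) ^ n * a - 1⌉ ⌊(2 : ℝ) ^ n * b⌋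
  have hpos : (0 : ℝ) < (2 : ℝ) ^ n := by positivity
  have h1 : U ⁻¹' Ioc a b ⊆ ⋃ k ∈ S, {w | val w n = k.toNat} := by
    intro w hw
    have h2 := val_le_U w n
    have h3 := U_le_val w n
    have h4 : (2 : ℝ) ^ n * (2 : ℝ)⁻¹ ^ n = 1 := by
      rw [← mul_pow]
      norm_num
    have hw1 : a < U w := hw.1
    have hw2 : U w ≤ b := hw.2
    refine mem_biUnion (x := (val w n : ℤ)) ?_ ?_
    · simp only [S, Finset.coe_Icc, mem_Icc]
      constructor
      · rw [Int.ceil_le]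
        push_cast
        have h5 : (2 : ℝ) ^ n * a < (2 : ℝ) ^ n * (((val w n : ℝ) + 1) * (2 : ℝ)⁻¹ ^ n) :=
          mul_lt_mul_of_pos_left (hw1.trans_le h3) hpos
        have h6 : (2 : ℝ) ^ n * (((val w n : ℝ) + 1) * (2 : ℝ)⁻¹ ^ n) = (val w n : ℝ) + 1 := by
          calc _ = ((val w n : ℝ) + 1) * ((2 : ℝ) ^ n * (2 : ℝ)⁻¹ ^ n) := by ring
            _ = _ := by rw [h4, mul_one]
        linarith
      · rw [Int.le_floor]
        push_cast
        have h5 : (2 : ℝ) ^ n * ((val w n : ℝ) * (2 : ℝ)⁻¹ ^ n) ≤ (2 : ℝ) ^ n * b :=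
          mul_le_mul_of_nonneg_left (h2.trans hw2) hpos.le
        have h6 : (2 : ℝ) ^ n * ((val w n : ℝ) * (2 : ℝ)⁻¹ ^ n) = (val w n : ℝ) := by
          calc _ = (val w n : ℝ) * ((2 : ℝ) ^ n * (2 : ℝ)⁻¹ ^ n) := by ring
            _ = _ := by rw [h4, mul_one]
        linarith
    · show val w n = ((val w n : ℤ)).toNat
      simp
  have hcard : (S.card : ℝ) ≤ (2 : ℝ) ^ n * (b - a) + 2 := by
    have h7 := Int.floor_le ((2 : ℝ) ^ n * b)
    have h8 := Int.le_ceil ((2 : ℝ) ^ n * a - 1)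
    have h9 : (2 : ℝ) ^ n * a ≤ (2 : ℝ) ^ n * b := mul_le_mul_of_nonneg_left hab hpos.le
    simp only [S, Int.card_Icc]
    rcases le_or_gt 0 (⌊(2 : ℝ) ^ n * b⌋ + 1 - ⌈(2 : ℝ) ^ n * a - 1⌉) with h10 | h10
    · have h11 : (((⌊(2 : ℝ) ^ n * b⌋ + 1 - ⌈(2 : ℝ) ^ n * a - 1⌉).toNat : ℤ) : ℝ) =
          ((⌊(2 : ℝ) ^ n * b⌋ + 1 - ⌈(2 : ℝ) ^ n * a - 1⌉ : ℤ) : ℝ) := by
        rw [Int.toNat_of_nonneg h10]
      have h12 : ((⌊(2 : ℝ) ^ n * b⌋ + 1 - ⌈(2 : ℝ) ^ n * a - 1⌉).toNat : ℝ) =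
          (((⌊(2 : ℝ) ^ n * b⌋ + 1 - ⌈(2 : ℝ) ^ n * a - 1⌉).toNat : ℤ) : ℝ) := by
        push_cast
        rfl
      rw [h12, h11]
      push_cast
      linarith
    · rw [Int.toNat_of_nonpos h10.le]
      push_cast
      linarith
  calc lam (U ⁻¹' Ioc a b) ≤ lam (⋃ k ∈ S, {w | val w n = k.toNat}) := measure_mono h1
    _ ≤ ∑ k ∈ S, lam {w | val w n = k.toNat} := measure_biUnion_finset_le _ _
    _ ≤ ∑ _k ∈ S, (2 : ENNReal)⁻¹ ^ n := Finset.sum_le_sum fun k _ => lam_val n _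
    _ = (S.card : ENNReal) * (2 : ENNReal)⁻¹ ^ n := by rw [Finset.sum_const, nsmul_eq_mul]
    _ = ENNReal.ofReal ((S.card : ℝ) * (2 : ℝ)⁻¹ ^ n) := by
      rw [ENNReal.ofReal_mul (by positivity), ENNReal.ofReal_natCast,
        ENNReal.ofReal_pow (by norm_num), ENNReal.ofReal_inv_of_pos (by norm_num)]
      norm_num
    _ ≤ _ := by
      refine ENNReal.ofReal_le_ofReal ?_
      have h4 : (2 : ℝ) ^ n * (2 : ℝ)⁻¹ ^ n = 1 := by
        rw [← mul_pow]
        norm_num
      calc (S.card : ℝ) * (2 : ℝ)⁻¹ ^ n ≤ ((2 : ℝ) ^ n * (b - a) + 2) * (2 : ℝ)⁻¹ ^ n :=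
            mul_le_mul_of_nonneg_right hcard (by positivity)
        _ = (b - a) * ((2 : ℝ) ^ n * (2 : ℝ)⁻¹ ^ n) + 2 * (2 : ℝ)⁻¹ ^ n := by ring
        _ = _ := by rw [h4, mul_one]

theorem lam_Ioc (a b : ℝ) : lam (U ⁻¹' Ioc a b) ≤ ENNReal.ofReal (b - a) := by
  rcases le_or_gt a b with hab | hab
  · have h1 : Tendsto (fun n : ℕ => ENNReal.ofReal (b - a + 2 * (2 : ℝ)⁻¹ ^ n)) atTop
        (𝓝 (ENNReal.ofReal (b - a + 2 * 0))) := by
      refine (ENNReal.continuous_ofReal.tendsto _).comp ?_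
      refine Tendsto.const_add _ (Tendsto.const_mul _ ?_)
      exact tendsto_pow_atTop_nhds_zero_of_lt_one (by norm_num) (by norm_num)
    rw [mul_zero, add_zero] at h1
    exact ge_of_tendsto' h1 fun n => lam_Ioc_le a b hab n
  · rw [Ioc_eq_empty (not_lt.2 hab.le)]
    simp

theorem lam_le_volume (s : Set ℝ) : lam (U ⁻¹' s) ≤ volume s := by
  have h1 : OuterMeasure.map U lam.toOuterMeasure ≤ StieltjesFunction.id.outer := by
    unfold StieltjesFunction.outer
    rw [OuterMeasure.le_ofFunction]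
    intro s
    rw [StieltjesFunction.length_eq]
    refine le_iInf fun a => le_iInf fun b => le_iInf fun hs => ?_
    have hs' : s ⊆ Ioc a b := by
      intro x hx
      refine hs ⟨hx, ?_⟩
      simp [botSet]
    rw [OuterMeasure.map_apply]
    calc lam.toOuterMeasure (U ⁻¹' s) ≤ lam (U ⁻¹' Ioc a b) := measure_mono (preimage_mono hs')
      _ ≤ ENNReal.ofReal (b - a) := lam_Ioc a b
      _ = _ := by simp [StieltjesFunction.id]
  have h2 : StieltjesFunction.id.outer s = volume s := by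
    conv_rhs => rw [Real.volume_eq_stieltjes_id]
    rw [StieltjesFunction.measure]
    rfl
  rw [← h2]
  exact h1 s

theorem lam_preimage_null {s : Set ℝ} (h : volume s = 0) :
    lam (U ⁻¹' s) = 0 :=
  le_antisymm ((lam_le_volume s).trans h.le) bot_le

/-! ### Flips -/

/-- the sequence `w` with the bit with index `n` changed -/
def flip (n : ℕ) (w : ℕ → Bool) (i : ℕ) : Bool := if i = n then !(w i) else w i

theorem measurable_flip (n : ℕ) : Measurable (flip n) := by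
  refine measurable_pi_lambda _ fun i => ?_
  have h : Measurable fun b : Bool => if i = n then !b else b := measurable_of_finite _
  exact h.comp (measurable_pi_apply i)

theorem flip_flip (n : ℕ) (w : ℕ → Bool) : flip n (flip n w) = w := by
  funext i
  by_cases h : i = n <;> simp [flip, h]

theorem map_flip (n : ℕ) : lam.map (flip n) = lam := by
  have hf : ∀ i, Measurable fun b : Bool => if i = n then !b else b :=
    fun i => measurable_of_finite _
  have h1 := Measure.infinitePi_map_pi (fun _ : ℕ => coin) hf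
  have h2 : (fun i : ℕ => coin.map fun b : Bool => if i = n then !b else b) =
      fun _ : ℕ => coin := by
    funext i
    by_cases h : i = n
    · simp only [h, if_true]
      refine Measure.ext_of_singleton fun b => ?_
      rw [Measure.map_apply (measurable_of_finite _) (measurableSet_singleton _)]
      have h3 : (fun b : Bool => !b) ⁻¹' {b} = {!b} := by
        ext c
        cases b <;> cases c <;> simp
      rw [h3, RF.coin_singleton, RF.coin_singleton]
    · simp only [h, if_false]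
      exact Measure.map_id
  unfold lam
  rw [show flip n = fun (x : ℕ → Bool) i => if i = n then !(x i) else x i from rfl, h1]
  congr 1

theorem lam_flip (n : ℕ) {s : Set (ℕ → Bool)} (hs : MeasurableSet s) :
    lam (flip n ⁻¹' s) = lam s := by
  rw [← Measure.map_apply (measurable_flip n) hs, map_flip]

/-- A measurable set `s` is null if there are infinitely many flips which move it to pairwise
disjoint sets. -/
theorem null_of_flips {s : Set (ℕ → Bool)} (hs : MeasurableSet s) (g : ℕ → ℕ)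
    (h : ∀ i j, i ≠ j → ∀ w, flip (g i) w ∈ s → flip (g j) w ∈ s → False) : lam s = 0 := by
  by_contra hne
  have h1 : ∑' i : ℕ, lam (flip (g i) ⁻¹' s) ≤ 1 := by
    rw [← measure_iUnion]
    · exact prob_le_one
    · intro i j hij
      rw [Function.onFun, Set.disjoint_left]
      exact fun w hw hw' => h i j hij w hw hw'
    · exact fun i => measurable_flip _ hs
  simp only [lam_flip _ hs] at h1
  rw [ENNReal.tsum_const_eq_top_of_ne_zero hne] at h1
  exact absurd h1 (by simp)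

end Pool.Agent.V11242.PL
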