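import Mathlib
import Pool.Agent.V11242.PL.Meas

/-!
# Rational translates of a set of positive measure
-/

set_option autoImplicit false
set_option linter.unusedSectionVars false

namespace Pool.Agent.V11242.PL

open MeasureTheory Set Filter Topology Pool.Agent.V11242.RN

theorem exists_inter_pos {W C : Set ℝ} (hW : MeasurableSet W) (hC : MeasurableSet C)
    (hW0 : volume W ≠ 0) (hC0 : volume C ≠ 0) :
    ∃ x : ℝ, volume {y : ℝ | y ∈ W ∧ y - x ∈ C} ≠ 0 := by
  by_contra hcon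
  push Not at hcon
  have hm : MeasurableSet {z : ℝ × ℝ | ¬ (z.2 ∈ W ∧ z.2 - z.1 ∈ C)} := by
    refine MeasurableSet.compl (MeasurableSet.inter ?_ ?_)
    · exact measurable_snd hW
    · exact (measurable_snd.sub measurable_fst) hC
  have h1 : ∀ᵐ x : ℝ, ∀ᵐ y : ℝ, ¬ (y ∈ W ∧ y - x ∈ C) := by
    refine ae_of_all _ fun x => ?_
    rw [ae_iff]
    simpa using hcon x
  have h2 := (Measure.ae_ae_comm (μ := (volume : Measure ℝ)) (ν := (volume : Measure ℝ))
    (p := fun x y => ¬ (y ∈ W ∧ y - x ∈ C)) hm).1 h1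
  refine hW0 (measure_mono_null (fun y hy => ?_) (ae_iff.1 h2))
  show ¬ ∀ᵐ x : ℝ, ¬ (y ∈ W ∧ y - x ∈ C)
  intro h3
  refine hC0 ?_
  have h4 : volume {x : ℝ | y - x ∈ C} = 0 := by
    rw [ae_iff] at h3
    refine measure_mono_null (fun x hx => ?_) h3
    show ¬ ¬ (y ∈ W ∧ y - x ∈ C)
    exact not_not.2 ⟨hy, hx⟩
  have h5 : volume ((fun x : ℝ => y - x) ⁻¹' C) = volume C := by
    exact (Measure.measurePreserving_sub_left (volume : Measure ℝ) y).measure_preimage
      hC.nullMeasurableSet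
  rw [← h5]
  exact h4

theorem exists_rat_translate {W C : Set ℝ} (hW : MeasurableSet W) (hC : MeasurableSet C)
    (hW0 : volume W ≠ 0) (hC0 : volume C ≠ 0) : ∃ q : ℚ, ∃ c ∈ C, c + q ∈ W := by
  obtain ⟨x, hx⟩ := exists_inter_pos hW hC hW0 hC0
  have hm : MeasurableSet {y : ℝ | y ∈ W ∧ y - x ∈ C} :=
    MeasurableSet.inter hW ((measurable_id.sub_const x) hC)
  have h1 := Measure.sub_mem_nhds_zero_of_addHaar_pos (volume : Measure ℝ) _ hm
    (pos_iff_ne_zero.2 hx)
  have h2 : Tendsto (fun t : ℝ => t - x) (𝓝 x) (𝓝 0) := by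
    have h3 : Tendsto (fun t : ℝ => t - x) (𝓝 x) (𝓝 (x - x)) :=
      (continuous_id.sub continuous_const).tendsto x
    rwa [sub_self] at h3
  obtain ⟨q, h4⟩ := (Rat.denseRange_cast (𝕜 := ℝ)).mem_nhds (h2 h1)
  obtain ⟨v1, hv1, v2, hv2, h5⟩ := Set.mem_sub.1 h4
  refine ⟨q, v2 - x, hv2.2, ?_⟩
  have h6 : v2 - x + q = v1 := by linarith
  rw [h6]
  exact hv1.1

/-- Almost every sequence of bits codes a real number which is moved into `W` by some rational
translation. -/
theorem lam_not_moved {W : Set ℝ} (hW : MeasurableSet W) (hW0 : volume W ≠ 0) :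
    lam {w | ∀ q : ℚ, U w + q ∉ W} = 0 := by
  have hm : MeasurableSet {t : ℝ | ∀ q : ℚ, t + q ∉ W} := by
    have : {t : ℝ | ∀ q : ℚ, t + q ∉ W} = ⋂ q : ℚ, ((fun t : ℝ => t + q) ⁻¹' W)ᶜ := by
      ext t
      simp
    rw [this]
    exact MeasurableSet.iInter fun q => ((measurable_id.add_const (q : ℝ)) hW).compl
  refine lam_preimage_null (s := {t : ℝ | ∀ q : ℚ, t + q ∉ W}) ?_
  by_contra hne
  obtain ⟨q, c, hc, hc'⟩ := exists_rat_translate hW hm hW0 hne
  exact hc q hc'

/-! ### Changing a bit -/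

theorem abs_U_flip (v : ℕ → Bool) (n : ℕ) : |U (flip n v) - U v| = (2 : ℝ)⁻¹ ^ (n + 1) := by
  have h1 : U (flip n v) - U v = ((bv (flip n v n) : ℝ) - bv (v n)) * (2 : ℝ)⁻¹ ^ (n + 1) := by
    unfold U
    rw [← (summable_term _).tsum_sub (summable_term _), tsum_eq_single n]
    · ring
    · intro m hm
      have : flip n v m = v m := by simp [flip, hm]
      rw [this, sub_self]
  rw [h1, abs_mul, abs_of_nonneg (by positivity : (0 : ℝ) ≤ (2 : ℝ)⁻¹ ^ (n + 1))]
  have h2 : |(bv (flip n v n) : ℝ) - bv (v n)| = 1 := by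
    simp only [flip, if_true]
    cases v n <;> simp [bv]
  rw [h2, one_mul]

theorem flip_inj {v : ℕ → Bool} {i j : ℕ} (h : U (flip i v) = U (flip j v)) : i = j := by
  have h1 := abs_U_flip v i
  rw [h, abs_U_flip v j] at h1
  have h2 : Function.Injective fun n : ℕ => (2 : ℝ)⁻¹ ^ n :=
    pow_right_injective₀ (by norm_num) (by norm_num)
  have h3 := h2 h1
  omega

/-- the sequence with index `j` among the `r + 1` sequences interleaved in `z` -/
def col (r : ℕ) (j : Fin (r + 1)) (z : ℕ → Bool) (n : ℕ) : Bool := z (n * (r + 1) + j)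

theorem col_inter' {K : Type} (r : ℕ) (x : K → ℕ → Bool) (s : Fin (r + 1) → K) (j : Fin (r + 1)) :
    col r j (inter' r x s) = x (s j) := by
  funext n
  unfold col inter'
  have h1 : (n * (r + 1) + j) / (r + 1) = n := by
    rw [Nat.mul_comm, Nat.mul_add_div r.succ_pos, Nat.div_eq_of_lt j.2, Nat.add_zero]
  have h2 : (n * (r + 1) + j) % (r + 1) = j := by
    rw [Nat.mul_comm, Nat.mul_add_mod, Nat.mod_eq_of_lt j.2]
  have h3 : (⟨(n * (r + 1) + j) % (r + 1), Nat.mod_lt _ r.succ_pos⟩ : Fin (r + 1)) = j :=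
    Fin.ext h2
  rw [h1, h3]

theorem measurable_col (r : ℕ) (j : Fin (r + 1)) : Measurable (col r j) :=
  measurable_pi_lambda _ fun _ => measurable_pi_apply _

theorem col_flip (r : ℕ) (j j' : Fin (r + 1)) (n : ℕ) (w : ℕ → Bool) :
    col r j (flip (n * (r + 1) + j') w) = if j = j' then flip n (col r j w) else col r j w := by
  funext m
  have h1 : m * (r + 1) + j = n * (r + 1) + j' ↔ m = n ∧ j = j' := by
    constructor
    · intro h
      have h2 : (m * (r + 1) + j) / (r + 1) = (n * (r + 1) + j') / (r + 1) := by rw [h]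
      have h3 : (m * (r + 1) + j) % (r + 1) = (n * (r + 1) + j') % (r + 1) := by rw [h]
      rw [Nat.mul_comm m, Nat.mul_comm n, Nat.mul_add_div r.succ_pos, Nat.mul_add_div r.succ_pos,
        Nat.div_eq_of_lt j.2, Nat.div_eq_of_lt j'.2, Nat.add_zero, Nat.add_zero] at h2
      rw [Nat.mul_comm m, Nat.mul_comm n, Nat.mul_add_mod, Nat.mul_add_mod,
        Nat.mod_eq_of_lt j.2, Nat.mod_eq_of_lt j'.2] at h3
      exact ⟨h2, Fin.ext h3⟩
    · rintro ⟨rfl, rfl⟩
      rfl
  unfold col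
  by_cases hj : j = j'
  · subst hj
    simp only [if_true]
    unfold flip
    by_cases hm : m = n
    · simp [hm]
    · have : ¬ (m * (r + 1) + (j : ℕ) = n * (r + 1) + j) := fun h => hm (h1.1 h).1
      simp [hm]
  · simp only [hj, if_false]
    unfold flip
    have : ¬ (m * (r + 1) + (j : ℕ) = n * (r + 1) + j') := fun h => hj (h1.1 h).2
    simp [this]

/-- the set of the (codes of) tuples which satisfy a certain linear relation -/
def bad (F : ℝ → ℝ) (r : ℕ) (m : ℤ) (a : ℚ) (c : Fin r → ℤ) (t : ℝ) : Set (ℕ → Bool) :=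
  {z | F (U (col r 0 z) + a) =
    m * U (col r 0 z) + ∑ i : Fin r, (c i : ℝ) * U (col r i.succ z) + t}

theorem measurable_bad {F : ℝ → ℝ} (hF : Continuous F) (r : ℕ) (m : ℤ) (a : ℚ) (c : Fin r → ℤ)
    (t : ℝ) : MeasurableSet (bad F r m a c t) := by
  have hU : ∀ j, Measurable fun z => U (col r j z) := fun j =>
    measurable_U.comp (measurable_col r j)
  refine measurableSet_eq_fun (hF.measurable.comp ((hU 0).add_const _)) ?_
  refine (((hU 0).const_mul _).add ?_).add_const _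
  exact Finset.measurable_sum _ fun i _ => (hU _).const_mul _

theorem lam_bad {F : ℝ → ℝ} (hF : Continuous F) (r : ℕ) (m : ℤ) (a : ℚ) (c : Fin r → ℤ)
    (t : ℝ) {i₀ : Fin r} (h₀ : c i₀ ≠ 0) : lam (bad F r m a c t) = 0 := by
  refine null_of_flips (measurable_bad hF r m a c t) (fun n => n * (r + 1) + (i₀.succ : ℕ)) ?_
  intro i j hij w hi hj
  refine hij ?_
  have e0 : ∀ n, col r 0 (flip (n * (r + 1) + (i₀.succ : ℕ)) w) = col r 0 w := fun n => by
    rw [col_flip, if_neg (Fin.succ_ne_zero i₀).symm]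
  have e1 : ∀ n (l : Fin r), l ≠ i₀ →
      col r l.succ (flip (n * (r + 1) + (i₀.succ : ℕ)) w) = col r l.succ w := fun n l hl => by
    rw [col_flip, if_neg fun h => hl (Fin.succ_injective _ h)]
  have e2 : ∀ n, col r i₀.succ (flip (n * (r + 1) + (i₀.succ : ℕ)) w) =
      flip n (col r i₀.succ w) := fun n => by
    rw [col_flip, if_pos rfl]
  simp only [bad, mem_ofPred_eq, e0] at hi hj
  rw [hi] at hj
  have h1 : ∑ l : Fin r, (c l : ℝ) * U (col r l.succ (flip (i * (r + 1) + (i₀.succ : ℕ)) w)) =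
      ∑ l : Fin r, (c l : ℝ) * U (col r l.succ (flip (j * (r + 1) + (i₀.succ : ℕ)) w)) := by
    linarith
  rw [← Finset.add_sum_erase _ _ (Finset.mem_univ i₀),
    ← Finset.add_sum_erase (Finset.univ : Finset (Fin r))
      (fun l => (c l : ℝ) * U (col r l.succ (flip (j * (r + 1) + (i₀.succ : ℕ)) w)))
      (Finset.mem_univ i₀)] at h1
  have h2 : ∑ l ∈ Finset.univ.erase i₀,
      (c l : ℝ) * U (col r l.succ (flip (i * (r + 1) + (i₀.succ : ℕ)) w)) =
      ∑ l ∈ Finset.univ.erase i₀,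
      (c l : ℝ) * U (col r l.succ (flip (j * (r + 1) + (i₀.succ : ℕ)) w)) := by
    refine Finset.sum_congr rfl fun l hl => ?_
    rw [e1 _ _ (Finset.ne_of_mem_erase hl), e1 _ _ (Finset.ne_of_mem_erase hl)]
  rw [h2] at h1
  have h3 := add_right_cancel h1
  rw [e2, e2] at h3
  have h4 : (c i₀ : ℝ) ≠ 0 := by exact_mod_cast h₀
  exact flip_inj (mul_left_cancel₀ h4 h3)

end Pool.Agent.V11242.PL
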