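import Mathlib
import Pool.Agent.V11242.PL.Erg

/-!
# The group generated by the rational numbers and a strong Sierpiński sequence
-/

set_option autoImplicit false
set_option linter.unusedSectionVars false

namespace Pool.Agent.V11242.PL

open MeasureTheory Set Filter Topology Pool.Agent.V11242.RN Cardinal

variable {K : Type}

/-- the element of the group with the coordinates `q` and `c` -/
noncomputable def phi (x : K → ℕ → Bool) : ℚ × (K →₀ ℤ) →+ ℝ :=
  AddMonoidHom.coprod (Rat.castHom ℝ).toAddMonoidHom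
    (Finsupp.liftAddHom fun k => (zmultiplesHom ℝ) (U (x k)))

theorem phi_apply (x : K → ℕ → Bool) (q : ℚ) (c : K →₀ ℤ) :
    phi x (q, c) = q + c.sum fun k n => (n : ℝ) * U (x k) := by
  have h : ∀ (k : K) (n : ℤ), (zmultiplesHom ℝ) (U (x k)) n = (n : ℝ) * U (x k) := fun k n => by
    rw [zmultiplesHom_apply, zsmul_eq_mul]
  simp only [phi, AddMonoidHom.coprod_apply, Finsupp.liftAddHom_apply]
  congr 1
  exact Finsupp.sum_congr fun k _ => h k _

/-- the group -/
noncomputable def Gp (x : K → ℕ → Bool) : AddSubgroup ℝ := (phi x).range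

theorem rat_mem (x : K → ℕ → Bool) (q : ℚ) : (q : ℝ) ∈ Gp x :=
  ⟨(q, 0), by rw [phi_apply]; simp⟩

theorem U_mem (x : K → ℕ → Bool) (k : K) : U (x k) ∈ Gp x :=
  ⟨(0, Finsupp.single k 1), by rw [phi_apply]; simp⟩

theorem dense_Gp (x : K → ℕ → Bool) : Dense (Gp x : Set ℝ) := by
  refine (Rat.denseRange_cast (𝕜 := ℝ)).mono ?_
  rintro _ ⟨q, rfl⟩
  exact rat_mem x q

theorem mk_Gp_lt (x : K → ℕ → Bool) (hK : #K < 𝔠) : #(Gp x) < 𝔠 := by
  have h1 : #(Gp x) ≤ #(ℚ × (K →₀ ℤ)) := mk_le_of_surjective (AddMonoidHom.rangeRestrict_surjective (phi x))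
  refine h1.trans_lt ?_
  rw [mk_prod, lift_id, lift_id]
  refine mul_lt_of_lt aleph0_le_continuum ?_ ?_
  · rw [mk_eq_aleph0]
    exact aleph0_lt_continuum
  · rcases finite_or_infinite K with h | h
    · have : #(K →₀ ℤ) ≤ ℵ₀ := mk_le_aleph0
      exact this.trans_lt aleph0_lt_continuum
    · rw [mk_finsupp_of_infinite]
      refine max_lt hK ?_
      rw [mk_eq_aleph0]
      exact aleph0_lt_continuum

section Order

variable [LinearOrder K]

/-- the elements of the free group which are supported below `k` -/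
def Supp (k : K) : Set (K →₀ ℤ) := {c | ∀ j ∈ c.support, j ≤ k}

theorem countable_Supp {k : K} (hk : (Iic k).Countable) : (Supp k).Countable := by
  classical
  have : Countable (Iic k) := hk.to_subtype
  have h1 : Countable ((Iic k : Set K) →₀ ℤ) := inferInstance
  have h2 : MapsTo (fun c : K →₀ ℤ => c.comapDomain (Subtype.val : ↥(Iic k : Set K) → K)
      Subtype.val_injective.injOn) (Supp k) univ := fun _ _ => mem_univ _
  refine h2.countable_of_injOn ?_ (to_countable _)
  intro c hc d hd h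
  ext j
  by_cases hj : j ≤ k
  · exact DFunLike.congr_fun h (⟨j, hj⟩ : (Iic k : Set K))
  · have h3 : c j = 0 := by
      by_contra h4
      exact hj (hc j (Finsupp.mem_support_iff.2 h4))
    have h4 : d j = 0 := by
      by_contra h5
      exact hj (hd j (Finsupp.mem_support_iff.2 h5))
    rw [h3, h4]

theorem IsSierpinski.exists_thr {x : K → ℕ → Bool} (hx : IsSierpinski x) (r : ℕ)
    {X : Set (ℕ → Bool)} (hX : lam X = 0) : ∃ k₀ : K, ∀ s : Fin (r + 1) → K,
      Function.Injective s → (∀ i, k₀ < s i) → inter' r x s ∉ X := by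
  obtain ⟨c, hc, hc'⟩ := exists_code hX
  obtain ⟨k₀, hk₀⟩ := hx r c hc
  exact ⟨k₀, fun s h1 h2 h3 => hk₀ s ⟨h1, h2⟩ (hc' _ h3)⟩

theorem inter'_zero (x : K → ℕ → Bool) (s : Fin 1 → K) : inter' 0 x s = x (s 0) := by
  have h := col_inter' 0 x s 0
  rw [← h]
  funext n
  simp [col]

theorem IsSierpinski.exists_thr0 {x : K → ℕ → Bool} (hx : IsSierpinski x)
    {X : Set (ℕ → Bool)} (hX : lam X = 0) : ∃ k₀ : K, ∀ k, k₀ < k → x k ∉ X := by
  obtain ⟨k₀, hk₀⟩ := hx.exists_thr 0 hX
  refine ⟨k₀, fun k hk => ?_⟩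
  have h := hk₀ (fun _ => k) (fun i j _ => Subsingleton.elim (α := Fin 1) i j) fun _ => hk
  rwa [inter'_zero] at h

theorem lam_singleton (y : ℕ → Bool) : lam {y} = 0 := lam_of_inE (inE_singleton y)

theorem IsSierpinski.uncountable {x : K → ℕ → Bool} (hx : IsSierpinski x) [NoMaxOrder K] :
    Uncountable K := by
  rw [← not_countable_iff]
  intro h
  have h1 : lam (range x) = 0 := by
    have : range x = ⋃ k, {x k} := by
      ext y
      simp [eq_comm]
    rw [this]
    exact measure_iUnion_null fun k => lam_singleton _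
  obtain ⟨k₀, hk₀⟩ := hx.exists_thr0 h1
  obtain ⟨k, hk⟩ := exists_gt k₀
  exact hk₀ k hk ⟨k, rfl⟩

theorem exists_ub [Uncountable K] (hI : ∀ k : K, (Iic k).Countable) (g : ℕ → K) :
    ∃ k, ∀ n, g n < k := by
  by_contra hcon
  push Not at hcon
  have h1 : (univ : Set K) = ⋃ n, Iic (g n) := by
    refine (eq_univ_of_forall fun k => ?_).symm
    obtain ⟨n, hn⟩ := hcon k
    exact mem_iUnion.2 ⟨n, hn⟩
  have h2 : (univ : Set K).Countable := by
    rw [h1]
    exact countable_iUnion fun n => hI _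
  exact not_countable (α := K) (countable_univ_iff.1 h2)

variable {x : K → ℕ → Bool} {F : ℝ → ℝ}

/-- tuples above `k'` do not satisfy linear relations with parameters below `k` -/
def Thr (x : K → ℕ → Bool) (F : ℝ → ℝ) (k k' : K) : Prop :=
  ∀ (r : ℕ) (s : Fin (r + 1) → K), Function.Injective s → (∀ i, k' < s i) →
    ∀ (m : ℤ) (a : ℚ) (c : Fin r → ℤ) (q : ℚ) (b : K →₀ ℤ), (∃ i, c i ≠ 0) → b ∈ Supp k →
      inter' r x s ∉ bad F r m a c (phi x (q, b))

theorem exists_Thr [Uncountable K] (hI : ∀ k : K, (Iic k).Countable) (hx : IsSierpinski x)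
    (hF : Continuous F) (k : K) : ∃ k', k < k' ∧ Thr x F k k' := by
  have hS : Countable (Supp k) := (countable_Supp (hI k)).to_subtype
  have h1 : ∀ r : ℕ, ∃ k₀ : K, ∀ s : Fin (r + 1) → K,
      Function.Injective s → (∀ i, k₀ < s i) →
      inter' r x s ∉ ⋃ (m : ℤ) (a : ℚ) (c : Fin r → ℤ) (q : ℚ) (b : Supp k) (_ : ∃ i, c i ≠ 0),
        bad F r m a c (phi x (q, b.1)) := by
    intro r
    refine hx.exists_thr r ?_
    refine measure_iUnion_null fun m => measure_iUnion_null fun a => measure_iUnion_null fun c =>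
      measure_iUnion_null fun q => measure_iUnion_null fun b => measure_iUnion_null fun h => ?_
    obtain ⟨i, hi⟩ := h
    exact lam_bad hF r m a c _ hi
  choose k₀ hk₀ using h1
  obtain ⟨k', hk'⟩ := exists_ub hI fun n => Nat.casesOn n k k₀
  refine ⟨k', hk' 0, fun r s hs hs' m a c q b hc hb hmem => ?_⟩
  refine hk₀ r s hs (fun i => (hk' (r + 1)).trans (hs' i)) ?_
  simp only [mem_iUnion]
  exact ⟨m, a, c, q, ⟨b, hb⟩, hc, hmem⟩

/-- A sequence of bounds. -/
theorem exists_seq [Uncountable K] (hI : ∀ k : K, (Iic k).Countable) (hx : IsSierpinski x)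
    (hF : Continuous F) : ∃ κ : ℕ → K, StrictMono κ ∧ ∀ j, Thr x F (κ j) (κ (j + 1)) := by
  choose g hg hg' using fun k => exists_Thr hI hx hF k
  obtain ⟨k0⟩ : Nonempty K := inferInstance
  refine ⟨fun n => Nat.rec k0 (fun _ k => g k) n, strictMono_nat_of_lt_succ fun n => hg _,
    fun j => hg' _⟩

/-- The values of a 1-Lipschitz function, which maps the group to itself, at the generators. -/
theorem type_lemma {κ : ℕ → K} (hκ : StrictMono κ) (hκ' : ∀ j, Thr x F (κ j) (κ (j + 1)))
    (hFG : ∀ g ∈ Gp x, F g ∈ Gp x) {α : K} (hα : ∀ j, κ j < α) (a : ℚ) :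
    ∃ (m : ℤ) (j : ℕ) (q : ℚ) (b : K →₀ ℤ), b ∈ Supp (κ j) ∧
      F (U (x α) + a) = m * (U (x α) + a) + phi x (q, b) := by
  classical
  obtain ⟨⟨q, c⟩, hc⟩ := hFG _ ((Gp x).add_mem (U_mem x α) (rat_mem x a))
  rw [phi_apply] at hc
  let b : K →₀ ℤ := c.filter fun k => ∃ j, k ≤ κ j
  let T : Finset K := c.support.filter fun k => (¬ ∃ j, k ≤ κ j) ∧ k ≠ α
  have hb : ∃ j, b ∈ Supp (κ j) := by
    have h1 : ∀ S : Finset K, (∀ k ∈ S, ∃ j, k ≤ κ j) → ∃ j, ∀ k ∈ S, k ≤ κ j := by
      intro S hS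
      choose! g hg using hS
      refine ⟨S.sup g, fun k hk => (hg k hk).trans (hκ.monotone (Finset.le_sup hk))⟩
    obtain ⟨j, hj⟩ := h1 b.support fun k hk => by
      rw [Finsupp.support_filter, Finset.mem_filter] at hk
      exact hk.2
    exact ⟨j, hj⟩
  obtain ⟨j, hj⟩ := hb
  have hsum : (c.sum fun k n => (n : ℝ) * U (x k)) =
      (b.sum fun k n => (n : ℝ) * U (x k)) + (c α * U (x α) + ∑ k ∈ T, (c k : ℝ) * U (x k)) := by
    have e1 : (c.sum fun k n => (n : ℝ) * U (x k)) = (b.sum fun k n => (n : ℝ) * U (x k)) +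
        ∑ k ∈ c.support.filter (fun k => ¬ ∃ j, k ≤ κ j), (c k : ℝ) * U (x k) := by
      have h2 : (b.sum fun k n => (n : ℝ) * U (x k)) =
          ∑ k ∈ c.support.filter (fun k => ∃ j, k ≤ κ j), (c k : ℝ) * U (x k) := by
        rw [Finsupp.sum, Finsupp.support_filter]
        refine Finset.sum_congr rfl fun k hk => ?_
        have h3 : b k = c k := Finsupp.filter_apply_pos _ _ (Finset.mem_filter.1 hk).2
        rw [h3]
      rw [h2, Finsupp.sum, Finset.sum_filter_add_sum_filter_not]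
    rw [e1]
    congr 1
    have hαT : ¬ ∃ j, α ≤ κ j := fun ⟨j, hj⟩ => absurd (hα j) (not_lt.2 hj)
    by_cases hcα : c α = 0
    · rw [hcα, Int.cast_zero, zero_mul, zero_add]
      refine Finset.sum_congr ?_ fun _ _ => rfl
      ext k
      simp only [T, Finset.mem_filter, Finsupp.mem_support_iff]
      constructor
      · rintro ⟨h1, h2⟩
        exact ⟨h1, h2, fun h => h1 (h ▸ hcα)⟩
      · rintro ⟨h1, h2, -⟩
        exact ⟨h1, h2⟩
    · have e2 : c.support.filter (fun k => ¬ ∃ j, k ≤ κ j) = insert α T := by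
        ext k
        simp only [T, Finset.mem_filter, Finsupp.mem_support_iff, Finset.mem_insert]
        constructor
        · rintro ⟨h1, h2⟩
          by_cases h : k = α
          · exact Or.inl h
          · exact Or.inr ⟨h1, h2, h⟩
        · rintro (rfl | ⟨h1, h2, -⟩)
          · exact ⟨hcα, hαT⟩
          · exact ⟨h1, h2⟩
      rw [e2, Finset.sum_insert (by simp [T])]
  rw [hsum] at hc
  rcases T.eq_empty_or_nonempty with hT | ⟨k₁, hk₁⟩
  · rw [hT, Finset.sum_empty] at hc
    refine ⟨c α, j, q - c α * a, b, hj, ?_⟩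
    rw [phi_apply, ← hc]
    push_cast
    ring
  · exfalso
    let e := T.equivFin.symm
    let s : Fin (T.card + 1) → K := Fin.cons α fun i => (e i).1
    have hs : Function.Injective s := by
      rw [Fin.cons_injective_iff]
      constructor
      · rintro ⟨i, hi⟩
        exact (Finset.mem_filter.1 (e i).2).2.2 hi
      · exact Subtype.val_injective.comp e.injective
    have hs' : ∀ i, κ (j + 1) < s i := by
      intro i
      refine Fin.cases ?_ (fun i => ?_) i
      · exact hα _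
      · have h1 := (Finset.mem_filter.1 (e i).2).2.1
        push Not at h1
        exact h1 (j + 1)
    refine hκ' j T.card s hs hs' (c α) a (fun i => c (e i).1) q b ⟨T.equivFin ⟨k₁, hk₁⟩, ?_⟩ hj ?_
    · have h1 : e (T.equivFin ⟨k₁, hk₁⟩) = ⟨k₁, hk₁⟩ := Equiv.symm_apply_apply _ _
      rw [h1]
      exact Finsupp.mem_support_iff.1 (Finset.mem_filter.1 hk₁).1
    · simp only [bad, mem_ofPred_eq, col_inter']
      have h1 : s 0 = α := rfl
      have h2 : ∀ i : Fin T.card, s i.succ = (e i).1 := fun i => rfl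
      simp only [h1, h2]
      rw [phi_apply, ← hc]
      have h3 : ∑ i : Fin T.card, (c (e i).1 : ℝ) * U (x (e i).1) =
          ∑ k ∈ T, (c k : ℝ) * U (x k) := by
        rw [← Finset.sum_coe_sort T fun k => (c k : ℝ) * U (x k)]
        exact Equiv.sum_comp e fun k : T => (c k.1 : ℝ) * U (x k.1)
      rw [h3]
      ring

end Order

end Pool.Agent.V11242.PL
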