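import Mathlib
import Pool.Agent.V11242.PL.Group

/-!
# The group is plastic
-/

set_option autoImplicit false
set_option linter.unusedSectionVars false

namespace Pool.Agent.V11242.PL

open MeasureTheory Set Filter Topology Pool.Agent.V11242.RN Cardinal

/-- the points at which `F` is given by a certain affine function -/
def Aff (F : ℝ → ℝ) (m : ℤ) (t : ℝ) : Set ℝ := {y | F y = m * y + t}

theorem isClosed_Aff {F : ℝ → ℝ} (hF : Continuous F) (m : ℤ) (t : ℝ) : IsClosed (Aff F m t) :=
  isClosed_eq hF ((continuous_const.mul continuous_id).add continuous_const)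

/-- the sign given by a Boolean -/
def sgn (ε : Bool) : ℤ := cond ε 1 (-1)

theorem sgn_mul_self (ε : Bool) : (sgn ε : ℝ) * sgn ε = 1 := by cases ε <;> simp [sgn]

theorem volume_image_aff (ε : Bool) (t : ℝ) (S : Set ℝ) :
    volume ((fun y : ℝ => sgn ε * y + t) '' S) = volume S := by
  have h1 : (fun y : ℝ => sgn ε * y + t) '' S =
      (fun z : ℝ => z + -t) ⁻¹' ((fun z : ℝ => (sgn ε : ℝ) * z) ⁻¹' S) := by
    ext z
    simp only [mem_image, mem_preimage]
    constructor
    · rintro ⟨y, hy, rfl⟩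
      have : (sgn ε : ℝ) * (sgn ε * y + t + -t) = y := by
        calc _ = ((sgn ε : ℝ) * sgn ε) * y := by ring
          _ = y := by rw [sgn_mul_self, one_mul]
      rwa [this]
    · intro h
      refine ⟨_, h, ?_⟩
      calc (sgn ε : ℝ) * (sgn ε * (z + -t)) + t = ((sgn ε : ℝ) * sgn ε) * (z + -t) + t := by ring
        _ = z := by rw [sgn_mul_self]; ring
  rw [h1, measure_preimage_add_right, Real.volume_preimage_mul_left]
  · have : |((sgn ε : ℝ))⁻¹| = 1 := by cases ε <;> simp [sgn]
    rw [this]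
    simp
  · cases ε <;> simp [sgn]

section

variable {K : Type} [LinearOrder K] {x : K → ℕ → Bool} {F : ℝ → ℝ}

/-- the parameters -/
def Par (x : K → ℕ → Bool) (κ : ℕ → K) : Set ℝ :=
  {t | ∃ (j : ℕ) (q : ℚ) (b : K →₀ ℤ), b ∈ Supp (κ j) ∧ t = phi x (q, b)}

theorem countable_Par (hI : ∀ k : K, (Iic k).Countable) (κ : ℕ → K) : (Par x κ).Countable := by
  have h1 : Par x κ = ⋃ j : ℕ, ⋃ q : ℚ, (fun b => phi x (q, b)) '' (Supp (κ j)) := by
    ext t
    simp only [Par, mem_ofPred_eq, mem_iUnion, mem_image]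
    constructor
    · rintro ⟨j, q, b, hb, rfl⟩
      exact ⟨j, q, b, hb, rfl⟩
    · rintro ⟨j, q, b, hb, rfl⟩
      exact ⟨j, q, b, hb, rfl⟩
  rw [h1]
  exact countable_iUnion fun j => countable_iUnion fun q => (countable_Supp (hI _)).image _

theorem Par_sub {κ : ℕ → K} {t : ℝ} (ht : t ∈ Par x κ) : t ∈ Gp x := by
  obtain ⟨j, q, b, -, rfl⟩ := ht
  exact ⟨(q, b), rfl⟩

/-- The group meets all sets of positive measure. -/
theorem exists_gen [NoMaxOrder K] (hx : IsSierpinski x) {W : Set ℝ} (hW : MeasurableSet W)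
    (hW0 : volume W ≠ 0) (k₁ : K) : ∃ α, k₁ < α ∧ ∃ a : ℚ, U (x α) + a ∈ W := by
  obtain ⟨k₀, hk₀⟩ := hx.exists_thr0 (lam_not_moved hW hW0)
  obtain ⟨α, hα⟩ := exists_gt (max k₀ k₁)
  refine ⟨α, (le_max_right _ _).trans_lt hα, ?_⟩
  have h := hk₀ α ((le_max_left _ _).trans_lt hα)
  simpa using h

theorem exists_mem_Gp [NoMaxOrder K] (hx : IsSierpinski x) {W : Set ℝ} (hW : MeasurableSet W)
    (hW0 : volume W ≠ 0) : ∃ g ∈ Gp x, g ∈ W := by
  have hun := hx.uncountable
  obtain ⟨k₁⟩ : Nonempty K := inferInstance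
  obtain ⟨α, -, a, h⟩ := exists_gen hx hW hW0 k₁
  exact ⟨_, (Gp x).add_mem (U_mem x α) (rat_mem x a), h⟩

/-- A 1-Lipschitz function, which maps the group injectively to itself, does not decrease
distances. -/
theorem main [NoMaxOrder K] (hI : ∀ k : K, (Iic k).Countable) (hx : IsSierpinski x)
    (hF : LipschitzWith 1 F) (hFG : ∀ g ∈ Gp x, F g ∈ Gp x)
    (hinj : ∀ g ∈ Gp x, ∀ h ∈ Gp x, F g = F h → g = h) (u v : ℝ) (huv : u ≤ v) :
    v - u ≤ |F u - F v| := by
  classical
  have hun := hx.uncountable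
  have hFc : Continuous F := hF.continuous
  have hdist : ∀ y z, |F y - F z| ≤ |y - z| := fun y z => by
    have := hF.dist_le_mul y z
    simpa [Real.dist_eq] using this
  obtain ⟨κ, hκ, hκ'⟩ := exists_seq hI hx hFc
  obtain ⟨k₁, hk₁⟩ := exists_ub hI κ
  have hcP : (Par x κ).Countable := countable_Par hI κ
  have hcP' : Countable (Par x κ) := hcP.to_subtype
  -- the union of all the sets of agreement with affine functions
  have h1 : volume (⋃ (m : ℤ) (t : Par x κ), Aff F m t)ᶜ = 0 := by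
    by_contra hne
    have hm : MeasurableSet (⋃ (m : ℤ) (t : Par x κ), Aff F m t)ᶜ :=
      (MeasurableSet.iUnion fun m => MeasurableSet.iUnion fun t =>
        (isClosed_Aff hFc m _).measurableSet).compl
    obtain ⟨α, hα, a, ha⟩ := exists_gen hx hm hne k₁
    refine ha ?_
    obtain ⟨m, j, q, b, hb, h2⟩ := type_lemma hκ hκ' hFG (fun j => (hk₁ j).trans hα) a
    exact mem_iUnion.2 ⟨m, mem_iUnion.2 ⟨⟨phi x (q, b), j, q, b, hb, rfl⟩, h2⟩⟩
  have h2 : ∀ (m : ℤ) (t : Par x κ), m ≠ 1 → m ≠ -1 → volume (Aff F m t) = 0 := by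
    intro m t hm hm'
    by_cases h0 : m = 0
    · subst h0
      by_contra hne
      obtain ⟨g, hg, hg'⟩ := exists_mem_Gp hx (isClosed_Aff hFc 0 (t : ℝ)).measurableSet hne
      have hne' : volume (Aff F 0 t \ {g}) ≠ 0 := by
        rw [measure_sdiff_null (measure_singleton g)]
        exact hne
      obtain ⟨h, hh, hh'⟩ := exists_mem_Gp hx
        ((isClosed_Aff hFc 0 (t : ℝ)).measurableSet.diff (measurableSet_singleton g)) hne'
      have e1 : F g = t := by simpa [Aff] using hg'
      have e2 : F h = t := by simpa [Aff] using hh'.1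
      exact hh'.2 (hinj h hh g hg (e2.trans e1.symm))
    · have hsub : (Aff F m t).Subsingleton := by
        intro y hy z hz
        have e1 : F y = m * y + t := hy
        have e2 : F z = m * z + t := hz
        have e3 := hdist y z
        rw [e1, e2] at e3
        have e4 : (m : ℝ) * y + t - (m * z + t) = m * (y - z) := by ring
        rw [e4, abs_mul] at e3
        by_contra hyz
        have e5 : 0 < |y - z| := abs_pos.2 (sub_ne_zero.2 hyz)
        have e6 : (2 : ℝ) ≤ |(m : ℝ)| := by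
          have : (2 : ℤ) ≤ |m| := by
            rcases abs_cases m with ⟨h, _⟩ | ⟨h, _⟩ <;> omega
          exact_mod_cast this
        nlinarith
      exact hsub.measure_zero _
  -- only the signs `1` and `-1` matter
  let E : Bool × Par x κ → Set ℝ := fun i => Aff F (sgn i.1) i.2 ∩ Icc u v
  have hEc : ∀ i, IsCompact (E i) := fun i => isCompact_Icc.inter_left (isClosed_Aff hFc _ _)
  have hEi : ∀ i, F '' E i = (fun y : ℝ => sgn i.1 * y + i.2) '' E i := fun i =>
    image_congr fun y hy => hy.1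
  have h3 : ENNReal.ofReal (v - u) ≤ volume (⋃ i, E i) := by
    rw [← Real.volume_Icc]
    have hsub : Icc u v ⊆ (⋃ i, E i) ∪ ((⋃ (m : ℤ) (t : Par x κ), Aff F m t)ᶜ ∪
        ⋃ (m : ℤ) (t : Par x κ) (_ : m ≠ 1 ∧ m ≠ -1), Aff F m t) := by
      intro y hy
      by_cases h4 : y ∈ ⋃ (m : ℤ) (t : Par x κ), Aff F m t
      · simp only [mem_iUnion] at h4
        obtain ⟨m, t, h5⟩ := h4
        by_cases h6 : m = 1
        · subst h6
          exact Or.inl (mem_iUnion.2 ⟨(true, t), h5, hy⟩)
        · by_cases h7 : m = -1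
          · subst h7
            exact Or.inl (mem_iUnion.2 ⟨(false, t), h5, hy⟩)
          · refine Or.inr (Or.inr ?_)
            simp only [mem_iUnion]
            exact ⟨m, t, ⟨h6, h7⟩, h5⟩
      · exact Or.inr (Or.inl h4)
    refine (measure_mono hsub).trans ((measure_union_le _ _).trans ?_)
    have h4 : volume ((⋃ (m : ℤ) (t : Par x κ), Aff F m t)ᶜ ∪
        ⋃ (m : ℤ) (t : Par x κ) (_ : m ≠ 1 ∧ m ≠ -1), Aff F m t) = 0 := by
      refine measure_union_null h1 ?_
      exact measure_iUnion_null fun m => measure_iUnion_null fun t => measure_iUnion_null fun h =>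
        h2 m t h.1 h.2
    rw [h4, add_zero]
  -- the images are almost disjoint
  have h4 : Pairwise (Function.onFun (AEDisjoint volume) fun i => F '' E i) := by
    intro i i' hii
    show volume (F '' E i ∩ F '' E i') = 0
    by_contra hne
    have hm : MeasurableSet (F '' E i ∩ F '' E i') :=
      ((hEc i).image hFc).measurableSet.inter ((hEc i').image hFc).measurableSet
    have hne' : volume ((F '' E i ∩ F '' E i') \ {((i.2 : ℝ) + i'.2) / 2}) ≠ 0 := by
      rw [measure_sdiff_null (measure_singleton _)]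
      exact hne
    obtain ⟨w, hw, hw'⟩ := exists_mem_Gp hx (hm.diff (measurableSet_singleton _)) hne'
    obtain ⟨⟨⟨e, he, he'⟩, ⟨f, hf, hf'⟩⟩, hw''⟩ := hw'
    have key : ∀ (j : Bool × Par x κ) (y : ℝ), y ∈ E j → F y = w → y = sgn j.1 * (w - j.2) ∧
        y ∈ Gp x := by
      intro j y hy hy'
      have e1 : F y = sgn j.1 * y + j.2 := hy.1
      have e2 : y = sgn j.1 * (w - j.2) := by
        calc y = ((sgn j.1 : ℝ) * sgn j.1) * y := by rw [sgn_mul_self, one_mul]
          _ = sgn j.1 * (sgn j.1 * y + j.2 - j.2) := by ring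
          _ = _ := by rw [← e1, hy']
      refine ⟨e2, ?_⟩
      rw [e2, ← zsmul_eq_mul]
      exact (Gp x).zsmul_mem ((Gp x).sub_mem hw (Par_sub j.2.2)) _
    obtain ⟨e1, e2⟩ := key i e he he'
    obtain ⟨f1, f2⟩ := key i' f hf hf'
    have h5 : e = f := hinj e e2 f f2 (he'.trans hf'.symm)
    rw [e1, f1] at h5
    obtain ⟨ε, t⟩ := i
    obtain ⟨ε', t'⟩ := i'
    by_cases h6 : ε = ε'
    · subst h6
      refine hii (Prod.ext rfl (Subtype.ext ?_))
      cases ε <;> simp [sgn] at h5 <;> linarith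
    · refine hw'' ?_
      show w = ((t : ℝ) + t') / 2
      cases ε <;> cases ε' <;> simp [sgn] at h5 h6 <;> linarith
  have h5 : ENNReal.ofReal (v - u) ≤ volume (F '' Icc u v) := by
    calc ENNReal.ofReal (v - u) ≤ volume (⋃ i, E i) := h3
      _ ≤ ∑' i, volume (E i) := measure_iUnion_le _
      _ = ∑' i, volume (F '' E i) := by
        refine tsum_congr fun i => ?_
        rw [hEi, volume_image_aff]
      _ = volume (⋃ i, F '' E i) := (measure_iUnion₀ h4 fun i =>
        ((hEc i).image hFc).measurableSet.nullMeasurableSet).symm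
      _ ≤ volume (F '' Icc u v) := measure_mono (iUnion_subset fun i => image_mono inter_subset_right)
  -- the conclusion
  obtain ⟨s, hs, hs'⟩ := isCompact_Icc.exists_isMinOn (nonempty_Icc.2 huv) hFc.continuousOn
  obtain ⟨t, ht, ht'⟩ := isCompact_Icc.exists_isMaxOn (nonempty_Icc.2 huv) hFc.continuousOn
  have h6 : F '' Icc u v ⊆ Icc (F s) (F t) := by
    rintro _ ⟨y, hy, rfl⟩
    exact ⟨hs' hy, ht' hy⟩
  have h7 : ENNReal.ofReal (v - u) ≤ ENNReal.ofReal (F t - F s) := by
    exact (h5.trans (measure_mono h6)).trans_eq Real.volume_Icc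
  have h8 : F s ≤ F t := hs' ht
  have h9 : v - u ≤ F t - F s := (ENNReal.ofReal_le_ofReal_iff (by linarith)).1 h7
  have h10 : |F t - F s| ≤ |t - s| := hdist t s
  rw [abs_of_nonneg (by linarith)] at h10
  rcases le_total s t with hst | hst
  · rw [abs_of_nonneg (by linarith)] at h10
    have h11 : s = u := by linarith [hs.1, hs.2, ht.1, ht.2]
    have h12 : t = v := by linarith [hs.1, hs.2, ht.1, ht.2]
    rw [← h11, ← h12, abs_sub_comm, abs_of_nonneg (by linarith)]
    rw [h11, h12]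
    rw [h11, h12] at h9
    exact h9
  · rw [abs_sub_comm, abs_of_nonneg (by linarith)] at h10
    have h11 : t = u := by linarith [hs.1, hs.2, ht.1, ht.2]
    have h12 : s = v := by linarith [hs.1, hs.2, ht.1, ht.2]
    rw [← h11, ← h12, abs_of_nonneg (by linarith)]
    rw [h11, h12]
    rw [h11, h12] at h9
    exact h9

/-- The group is plastic. -/
theorem isometry_of_injective [NoMaxOrder K] (hI : ∀ k : K, (Iic k).Countable)
    (hx : IsSierpinski x) (f : Gp x → Gp x) (hf : Function.Injective f) (hf' : NonExpansive f)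
    (y z : Gp x) : dist (f y) (f z) = dist y z := by
  classical
  let f₀ : ℝ → ℝ := fun y => if h : y ∈ Gp x then f ⟨y, h⟩ else 0
  have hf₀ : ∀ y : Gp x, f₀ y = f y := fun y => by
    simp only [f₀]
    rw [dif_pos y.2]
  have h1 : LipschitzOnWith 1 f₀ (Gp x : Set ℝ) := by
    refine LipschitzOnWith.of_dist_le_mul fun y hy z hz => ?_
    have h2 := hf₀ ⟨y, hy⟩
    have h3 := hf₀ ⟨z, hz⟩
    simp only at h2 h3
    rw [h2, h3]
    have h4 := hf' ⟨y, hy⟩ ⟨z, hz⟩
    simpa [Subtype.dist_eq] using h4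
  obtain ⟨F, hF, hF'⟩ := h1.extend_real
  have h2 : ∀ y : Gp x, F y = f y := fun y => by
    rw [← hF' y.2, hf₀]
  have h3 : ∀ g ∈ Gp x, F g ∈ Gp x := fun g hg => by
    rw [h2 ⟨g, hg⟩]
    exact (f ⟨g, hg⟩).2
  have h4 : ∀ g ∈ Gp x, ∀ h ∈ Gp x, F g = F h → g = h := fun g hg h hh hgh => by
    rw [h2 ⟨g, hg⟩, h2 ⟨h, hh⟩] at hgh
    exact congrArg Subtype.val (hf (Subtype.ext hgh))
  have key : ∀ y z : Gp x, (y : ℝ) ≤ z → dist (f y) (f z) = dist y z := by
    intro y z hyz
    refine le_antisymm (hf' y z) ?_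
    have h5 := main hI hx hF h3 h4 y z hyz
    rw [h2, h2] at h5
    rw [Subtype.dist_eq, Subtype.dist_eq, Real.dist_eq, Real.dist_eq, abs_sub_comm,
      abs_of_nonneg (by linarith)]
    exact h5
  rcases le_total (y : ℝ) z with h | h
  · exact key y z h
  · rw [dist_comm, dist_comm y z]
    exact key z y h

end

theorem mk_lt {K : Type} [LinearOrder K]
    (h : ∀ C : K → ℕ → Set (List Bool), (∀ k, NullCode (C k)) →
      ∃ y : ℕ → Bool, ∀ k, ¬ InCoded y (C k)) : #K < 𝔠 := by
  rw [← not_le]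
  intro hle
  have h1 : #(ℕ → Bool) ≤ #K := by
    have : #(ℕ → Bool) = 𝔠 := by simp
    rw [this]
    exact hle
  obtain ⟨e⟩ := h1
  have h2 : ∀ y : ℕ → Bool, ∃ c, NullCode c ∧ ∀ z ∈ ({y} : Set (ℕ → Bool)), InCoded z c :=
    fun y => exists_code (lam_singleton y)
  choose c hc hc' using h2
  obtain ⟨y, hy⟩ := h (fun k => c (Function.invFun e k)) fun k => hc _
  refine hy (e y) ?_
  rw [Function.leftInverse_invFun e.injective]
  exact hc' y y rfl

end Pool.Agent.V11242.PL
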